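import Mathlib

/-!
# Definitions for Zak's connectedness question on multiple loci of projections

`K` is the base field. Points of `ℙ^N` are the elements of Mathlib's projectivization of
`Fin (N + 1) → K`.
-/

set_option autoImplicit false

namespace Pool.Agent.Lib.MP_1812d6_ag

open scoped LinearAlgebra.Projectivization Topology

universe u

variable (K : Type u) [Field K]

/-- The Zariski topology on the projective space `ℙ(K^m)`: it is generated by the loci where a
homogeneous polynomial does not vanish. -/
@[reducible] def zariski (m : ℕ) : TopologicalSpace (ℙ K (Fin m → K)) :=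
  TopologicalSpace.generateFrom
    {U | ∃ (d : ℕ) (F : MvPolynomial (Fin m) K), F.IsHomogeneous d ∧
      U = {x | MvPolynomial.eval x.rep F ≠ 0}}

variable {K}

/-- `I` is the homogeneous ideal of an irreducible variety `X ⊆ ℙ^N` of dimension `n`: it is a
homogeneous prime ideal, and the homogeneous coordinate ring has Krull dimension `n + 1`. -/
structure IsVarietyIdeal (N n : ℕ) (I : Ideal (MvPolynomial (Fin (N + 1)) K)) : Prop where
  isPrime : I.IsPrime
  isHomogeneous : ∀ F ∈ I, ∀ d : ℕ, MvPolynomial.homogeneousComponent d F ∈ I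
  dim : ringKrullDim (MvPolynomial (Fin (N + 1)) K ⧸ I) = (n : WithBot ℕ∞) + 1

/-- The variety is not contained in a hyperplane. -/
def IsNondegenerate {N : ℕ} (I : Ideal (MvPolynomial (Fin (N + 1)) K)) : Prop :=
  ∀ F ∈ I, F.IsHomogeneous 1 → F = 0

/-- The set of points of the variety with ideal `I`. -/
def points {N : ℕ} (I : Ideal (MvPolynomial (Fin (N + 1)) K)) : Set (ℙ K (Fin (N + 1) → K)) :=
  {x | ∀ F ∈ I, MvPolynomial.eval x.rep F = 0}

/-- `L` is (a coordinate form of) the linear projection `ℙ^N ⇢ ℙ^(N-1)` from the point `O`. -/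
structure IsProjectionFrom {N : ℕ} (O : ℙ K (Fin (N + 1) → K))
    (L : (Fin (N + 1) → K) →ₗ[K] (Fin N → K)) : Prop where
  surjective : Function.Surjective L
  ker_eq : LinearMap.ker L = O.submodule

/-- Restriction of polynomials to the affine line `t ↦ v + t o`. -/
noncomputable def lineHom {m : ℕ} (o v : Fin m → K) :
    MvPolynomial (Fin m) K →ₐ[K] Polynomial K :=
  MvPolynomial.aeval fun i => Polynomial.C (v i) + Polynomial.C (o i) * Polynomial.X

/-- The degree (length) of the scheme-theoretic intersection of the variety with ideal `I` and the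
affine line `{[v + t o]}`, that is, the line through `O = [o]` and `[v]` with the point `O`
removed: the dimension of `K[t] / (F (v + t o) : F ∈ I)`. -/
noncomputable def fibreDegree {m : ℕ} (I : Ideal (MvPolynomial (Fin m) K)) (o v : Fin m → K) : ℕ :=
  Module.finrank K (Polynomial K ⧸ I.map (lineHom o v))

/-- The `k`-fold locus of the projection `L` from `O ∉ X`: the points `y` of `ℙ^(N-1)` such that
the fibre over `y` (the intersection of `X` with the line through `O` and `y`) has degree at
least `k`. -/
def multLocus {N : ℕ} (I : Ideal (MvPolynomial (Fin (N + 1)) K)) (O : ℙ K (Fin (N + 1) → K))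
    (L : (Fin (N + 1) → K) →ₗ[K] (Fin N → K)) (k : ℕ) : Set (ℙ K (Fin N → K)) :=
  {y | ∃ v, L v = y.rep ∧ k ≤ fibreDegree I O.rep v}

/-- `U` is a dense open subset of projective space in the Zariski topology. -/
def IsDenseOpen {m : ℕ} (U : Set (ℙ K (Fin m → K))) : Prop :=
  IsOpen[zariski K m] U ∧ @Dense _ (zariski K m) U

/-- The centre `O` is not on the variety, and the `k`-fold locus of the projection from `O` is not
connected in the Zariski topology of `ℙ^(N-1)` (for all coordinate forms `L` of the projection;
there is at least one). -/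
def HasDisconnectedLocus {N : ℕ} (I : Ideal (MvPolynomial (Fin (N + 1)) K)) (k : ℕ)
    (O : ℙ K (Fin (N + 1) → K)) : Prop :=
  O ∉ points I ∧
    (∃ L : (Fin (N + 1) → K) →ₗ[K] (Fin N → K), IsProjectionFrom O L) ∧
    ∀ L : (Fin (N + 1) → K) →ₗ[K] (Fin N → K), IsProjectionFrom O L →
      ¬ @IsPreconnected _ (zariski K N) (multLocus I O L k)

end Pool.Agent.Lib.MP_1812d6_ag
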