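import Mathlib
import Pool.Agent.Lib.MP_1812d6_ag.Defs

set_option autoImplicit false

namespace Pool.Agent.Lib.MP_1812d6_ag

section formulas

variable {R : Type*} [CommRing R] (o v : Fin 6 → R)

/-- Coefficients of the restriction of the cubic equation to the line. -/
def c3 : R := o 3 ^ 3 + o 2 * o 3 * o 4 - o 1 * o 4 ^ 2
def c2 : R := 3 * o 3 ^ 2 * v 3 + (v 2 * o 3 * o 4 + o 2 * v 3 * o 4 + o 2 * o 3 * v 4)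
  - (v 1 * o 4 ^ 2 + 2 * o 1 * o 4 * v 4)
def c1 : R := 3 * o 3 * v 3 ^ 2 + (v 2 * v 3 * o 4 + v 2 * o 3 * v 4 + o 2 * v 3 * v 4)
  - (2 * v 1 * v 4 * o 4 + o 1 * v 4 ^ 2)
def c0 : R := v 3 ^ 3 + v 2 * v 3 * v 4 - v 1 * v 4 ^ 2

/-- `c2 = ∑ ep j * v (j + 1)`. -/
def ep : Fin 4 → R :=
  ![- o 4 ^ 2, o 3 * o 4, 3 * o 3 ^ 2 + o 2 * o 4, o 2 * o 3 - 2 * o 1 * o 4]
/-- `c1 = ∑ mu j * v (j + 1)`. -/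
def mu : Fin 4 → R :=
  ![- 2 * o 4 * v 4, o 4 * v 3 + o 3 * v 4, 3 * o 3 * v 3 + o 2 * v 4, - o 1 * v 4]
/-- `c0 = ∑ nu j * v (j + 1)`. -/
def nu : Fin 4 → R := ![- v 4 ^ 2, v 3 * v 4, v 3 ^ 2, 0]

/-- Coefficients of `t ^ 5`. -/
def h5 : Fin 4 → R :=
  ![0, 0, 0, o 5 ^ 2 * (o 1 ^ 2 * o 2) - o 0 * (o 5 * (o 5 - o 0)) * (o 2 ^ 2 + o 1 * o 3)
    - o 0 ^ 2 * (o 5 - o 0) ^ 2 * o 4]
/-- Coefficients of `t ^ 4`. -/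
def h4 : Fin 4 → R :=
  ![o 5 * o 1 * o 2 * o 3 - o 0 * (o 5 - o 0) * (o 3 ^ 2 + o 2 * o 4),
    o 0 * (o 5 - o 0) * o 3 * o 4 - o 5 * o 1 * o 2 * o 4 + o 5 * o 2 ^ 2 * o 3,
    o 5 * o 2 * o 3 ^ 2 - o 0 * (o 5 - o 0) * o 4 ^ 2,
    (o 5 ^ 2 * (2 * v 1 * o 1 * o 2 + o 1 ^ 2 * v 2) + 2 * v 5 * o 5 * (o 1 ^ 2 * o 2))
      - o 0 * (v 5 * ((o 5 - o 0) + o 5) * (o 2 ^ 2 + o 1 * o 3)
        + o 5 * (o 5 - o 0) * (2 * v 2 * o 2 + v 1 * o 3 + o 1 * v 3))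
      - o 0 ^ 2 * (2 * v 5 * (o 5 - o 0) * o 4 + (o 5 - o 0) ^ 2 * v 4)]
/-- Coefficients of `t ^ 3`. -/
def h3 : Fin 4 → R :=
  ![v 5 * o 1 * o 2 * o 3 + o 5 * (v 1 * o 2 * o 3 + o 1 * v 2 * o 3 + o 1 * o 2 * v 3)
      - o 0 * (v 5 * (o 3 ^ 2 + o 2 * o 4)
        + (o 5 - o 0) * (2 * v 3 * o 3 + v 2 * o 4 + o 2 * v 4)),
    o 0 * (v 5 * o 3 * o 4 + (o 5 - o 0) * (v 3 * o 4 + o 3 * v 4))
      - (v 5 * o 1 * o 2 * o 4 + o 5 * (v 1 * o 2 * o 4 + o 1 * v 2 * o 4 + o 1 * o 2 * v 4))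
      + (v 5 * o 2 ^ 2 * o 3 + o 5 * (2 * v 2 * o 2 * o 3 + o 2 ^ 2 * v 3)),
    v 5 * o 2 * o 3 ^ 2 + o 5 * (v 2 * o 3 ^ 2 + 2 * o 2 * o 3 * v 3)
      - o 0 * (v 5 * o 4 ^ 2 + 2 * (o 5 - o 0) * o 4 * v 4),
    (o 5 ^ 2 * (v 1 ^ 2 * o 2 + 2 * v 1 * o 1 * v 2)
        + 2 * v 5 * o 5 * (2 * v 1 * o 1 * o 2 + o 1 ^ 2 * v 2) + v 5 ^ 2 * (o 1 ^ 2 * o 2))
      - o 0 * (v 5 ^ 2 * (o 2 ^ 2 + o 1 * o 3)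
        + v 5 * ((o 5 - o 0) + o 5) * (2 * v 2 * o 2 + v 1 * o 3 + o 1 * v 3)
        + o 5 * (o 5 - o 0) * (v 2 ^ 2 + v 1 * v 3))
      - o 0 ^ 2 * (v 5 ^ 2 * o 4 + 2 * v 5 * (o 5 - o 0) * v 4)]
/-- The coefficient of `t ^ 2` is `∑ j, h2 i j * v (j + 1)`. -/
def h2 : Fin 4 → Fin 4 → R :=
  ![![v 5 * o 2 * o 3 + v 2 * o 5 * o 3 + v 3 * o 5 * o 2,
      v 5 * o 1 * o 3 + v 3 * o 5 * o 1 - o 0 * v 5 * o 4 - o 0 * (o 5 - o 0) * v 4,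
      v 5 * o 1 * o 2 - 2 * o 0 * v 5 * o 3 - o 0 * (o 5 - o 0) * v 3,
      - o 0 * v 5 * o 2],
    ![- v 5 * o 2 * o 4 - o 5 * v 2 * o 4 - o 5 * v 4 * o 2,
      - v 5 * o 1 * o 4 - o 5 * v 4 * o 1 + 2 * v 5 * o 2 * o 3 + o 5 * v 2 * o 3
        + 2 * o 5 * o 2 * v 3,
      o 0 * v 5 * o 4 + o 0 * (o 5 - o 0) * v 4 + v 5 * o 2 ^ 2,
      o 0 * v 5 * o 3 - v 5 * o 1 * o 2],
    ![0,
      v 5 * o 3 ^ 2 + 2 * o 5 * v 3 * o 3,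
      2 * v 5 * o 2 * o 3 + o 5 * o 2 * v 3,
      - 2 * o 0 * v 5 * o 4 - o 0 * (o 5 - o 0) * v 4],
    ![o 5 ^ 2 * v 1 * v 2 + 2 * v 5 * o 5 * (v 1 * o 2 + 2 * o 1 * v 2)
        + 2 * v 5 ^ 2 * o 1 * o 2 - o 0 * (v 5 ^ 2 * o 3 + v 5 * ((o 5 - o 0) + o 5) * v 3),
      v 5 ^ 2 * o 1 ^ 2 - o 0 * (2 * v 5 ^ 2 * o 2 + v 5 * ((o 5 - o 0) + o 5) * v 2),
      - o 0 * v 5 ^ 2 * o 1,
      - o 0 ^ 2 * v 5 ^ 2]]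
/-- Coefficients of `t`. -/
def h1 : Fin 4 → R :=
  ![o 5 * v 1 * v 2 * v 3 + v 5 * (o 1 * v 2 * v 3 + v 1 * o 2 * v 3 + v 1 * v 2 * o 3)
      - o 0 * v 5 * (v 3 ^ 2 + v 2 * v 4),
    o 0 * v 5 * v 3 * v 4
      - (o 5 * v 1 * v 2 * v 4 + v 5 * (o 1 * v 2 * v 4 + v 1 * o 2 * v 4 + v 1 * v 2 * o 4))
      + o 5 * v 2 ^ 2 * v 3 + v 5 * (2 * v 2 * o 2 * v 3 + v 2 ^ 2 * o 3),
    o 5 * v 2 * v 3 ^ 2 + v 5 * (o 2 * v 3 ^ 2 + 2 * v 2 * v 3 * o 3) - o 0 * v 5 * v 4 ^ 2,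
    2 * v 5 * o 5 * (v 1 ^ 2 * v 2) + v 5 ^ 2 * (v 1 ^ 2 * o 2 + 2 * v 1 * o 1 * v 2)
      - o 0 * v 5 ^ 2 * (v 2 ^ 2 + v 1 * v 3)]
/-- Constant coefficients. -/
def h0 : Fin 4 → R :=
  ![v 5 * v 1 * v 2 * v 3, - v 5 * v 1 * v 2 * v 4 + v 5 * v 2 ^ 2 * v 3, v 5 * v 2 * v 3 ^ 2,
    v 5 ^ 2 * v 1 ^ 2 * v 2]

/-- The matrix of the linear system satisfied by `(v 1, v 2, v 3, v 4)` on the triple locus. -/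
def Nmat : Matrix (Fin 4) (Fin 4) R := fun i j =>
  c3 o ^ 3 * h2 o v i j
    - ep o j * (c3 o ^ 2 * h3 o v i - c2 o v * c3 o * h4 o v i + c2 o v ^ 2 * h5 o i
      - c1 o v * c3 o * h5 o i)
    - mu o v j * (c3 o * (c3 o * h4 o v i - c2 o v * h5 o i))
    - nu v j * (c3 o ^ 2 * h5 o i)

theorem sum_ep : ep o 0 * v 1 + ep o 1 * v 2 + ep o 2 * v 3 + ep o 3 * v 4 = c2 o v := by
  simp [ep, c2]; ring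

theorem sum_mu : mu o v 0 * v 1 + mu o v 1 * v 2 + mu o v 2 * v 3 + mu o v 3 * v 4
    = c1 o v := by
  simp [mu, c1]; ring

theorem sum_nu : nu v 0 * v 1 + nu v 1 * v 2 + nu v 2 * v 3 + nu v 3 * v 4 = c0 v := by
  simp [nu, c0]; ring

/-- The coefficient of `t ^ 2`. -/
def h2s (i : Fin 4) : R :=
  h2 o v i 0 * v 1 + h2 o v i 1 * v 2 + h2 o v i 2 * v 3 + h2 o v i 3 * v 4

theorem Nmat_mulVec (i : Fin 4)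
    (h : c3 o ^ 3 * h2s o v i = c2 o v * (c3 o ^ 2 * h3 o v i - c2 o v * c3 o * h4 o v i
      + c2 o v ^ 2 * h5 o i - c1 o v * c3 o * h5 o i)
      + c1 o v * (c3 o * (c3 o * h4 o v i - c2 o v * h5 o i))
      + c0 v * (c3 o ^ 2 * h5 o i)) :
    (Nmat o v).mulVec ![v 1, v 2, v 3, v 4] i = 0 := by
  rw [Matrix.mulVec, dotProduct, Fin.sum_univ_four]
  simp only [Matrix.cons_val_zero, Matrix.cons_val_one, Matrix.cons_val, Nmat]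
  rw [h2s] at h
  linear_combination h
    - (c3 o ^ 2 * h3 o v i - c2 o v * c3 o * h4 o v i
      + c2 o v ^ 2 * h5 o i - c1 o v * c3 o * h5 o i) * sum_ep o v
    - (c3 o * (c3 o * h4 o v i - c2 o v * h5 o i)) * sum_mu o v
    - (c3 o ^ 2 * h5 o i) * sum_nu v

end formulas

end Pool.Agent.Lib.MP_1812d6_ag
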