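import Mathlib

/-!
# Krull dimension of finitely generated domains over a field

The Krull dimension is invariant under injective integral extensions, and for a finitely generated
domain over a field it equals the transcendence degree.
-/

set_option autoImplicit false

namespace Pool.Agent.Lib.MP_1812d6_ag

theorem ringKrullDim_eq_of_isIntegral (A B : Type*) [CommRing A] [CommRing B] [Algebra A B]
    [Algebra.IsIntegral A B] (hinj : Function.Injective (algebraMap A B)) :
    ringKrullDim B = ringKrullDim A := by
  apply le_antisymm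
  · refine Order.krullDim_le_of_strictMono (PrimeSpectrum.comap (algebraMap A B)) ?_
    intro P Q hPQ
    exact Ideal.IsIntegral.comap_lt_comap (A := B) (R := A) hPQ
  · refine iSup_le fun l => ?_
    have : FaithfulSMul A B := (faithfulSMul_iff_algebraMap_injective A B).2 hinj
    obtain ⟨Q, hQ⟩ := Algebra.IsIntegral.comap_surjective (R := A) (S := B) l.head
    have : Q.asIdeal.LiesOver l.head.asIdeal := ⟨by rw [← hQ]; rfl⟩
    obtain ⟨L, hL, -, -⟩ := Ideal.exists_ltSeries_of_hasGoingUp (R := A) (S := B) l Q.asIdeal
    rw [← hL]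
    exact le_iSup (fun p : LTSeries (PrimeSpectrum B) => (p.length : WithBot ℕ∞)) L

theorem ringKrullDim_eq_of_trdeg (K R : Type*) [Field K] [CommRing R] [IsDomain R] [Algebra K R]
    [Algebra.FiniteType K R] (n : ℕ) (h : Algebra.trdeg K R = n) : ringKrullDim R = n := by
  obtain ⟨s, g, hg, hint⟩ := exists_integral_inj_algHom_of_fg K R
  have h1 : (Algebra.trdeg K R) = s := by
    let := g.toRingHom.toAlgebra
    have : Algebra.IsIntegral (MvPolynomial (Fin s) K) R := ⟨hint⟩
    have : IsScalarTower K (MvPolynomial (Fin s) K) R := IsScalarTower.of_algebraMap_eq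
      (fun x => (g.commutes x).symm)
    have : FaithfulSMul (MvPolynomial (Fin s) K) R :=
      (faithfulSMul_iff_algebraMap_injective _ R).2 hg
    have h2 := lift_trdeg_add_eq K (MvPolynomial (Fin s) K) R
    have h3 : Algebra.trdeg (MvPolynomial (Fin s) K) R = 0 := _root_.trdeg_eq_zero
    have h4 := MvPolynomial.trdeg_of_isDomain (ι := Fin s) (S := K)
    rw [h3, h4] at h2
    simpa using h2.symm
  have h5 : ringKrullDim R = ringKrullDim (MvPolynomial (Fin s) K) := by
    let := g.toRingHom.toAlgebra
    have : Algebra.IsIntegral (MvPolynomial (Fin s) K) R := ⟨hint⟩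
    exact ringKrullDim_eq_of_isIntegral _ _ hg
  rw [h5, MvPolynomial.ringKrullDim_of_isNoetherianRing, ringKrullDim_eq_zero_of_field]
  rw [h1] at h
  have : s = n := by exact_mod_cast h
  simp [this]

end Pool.Agent.Lib.MP_1812d6_ag
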