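import Mathlib

/-!
# Homogeneous components and scaling
-/

set_option autoImplicit false

namespace Pool.Agent.Lib.MP_1812d6_ag

open MvPolynomial

section general

variable {σ : Type*} {B R : Type*} [CommRing B] [CommRing R] [Algebra B R]

theorem aeval_smul_of_isHomogeneous {F : MvPolynomial σ B} {d : ℕ} (hF : F.IsHomogeneous d)
    (c : R) (y : σ → R) : aeval (fun i => c * y i) F = c ^ d * aeval y F := by
  rw [aeval_def, aeval_def, eval₂_eq, eval₂_eq, Finset.mul_sum]
  refine Finset.sum_congr rfl fun m hm => ?_
  have h1 : ∑ i ∈ m.support, m i = d := by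
    have := hF (mem_support_iff.1 hm)
    simpa [Finsupp.weight_apply, Finsupp.sum] using this
  simp only [mul_pow, Finset.prod_mul_distrib, Finset.prod_pow_eq_pow_sum, h1]
  ring

theorem aeval_smul_eq_sum (F : MvPolynomial σ B) (c : R) (y : σ → R) :
    aeval (fun i => c * y i) F
      = ∑ d ∈ Finset.range (F.totalDegree + 1), c ^ d * aeval y (homogeneousComponent d F) := by
  conv_lhs => rw [← sum_homogeneousComponent F, map_sum]
  exact Finset.sum_congr rfl fun d _ =>
    aeval_smul_of_isHomogeneous (homogeneousComponent_isHomogeneous d F) c y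

theorem eval₂_smul_of_isHomogeneous {F : MvPolynomial σ B} {d : ℕ} (hF : F.IsHomogeneous d)
    (f : B →+* R) (c : R) (y : σ → R) :
    eval₂ f (fun i => c * y i) F = c ^ d * eval₂ f y F := by
  rw [eval₂_eq, eval₂_eq, Finset.mul_sum]
  refine Finset.sum_congr rfl fun m hm => ?_
  have h1 : ∑ i ∈ m.support, m i = d := by
    have := hF (mem_support_iff.1 hm)
    simpa [Finsupp.weight_apply, Finsupp.sum] using this
  simp only [mul_pow, Finset.prod_mul_distrib, Finset.prod_pow_eq_pow_sum, h1]
  ring

theorem pow_dvd_eval₂ {F : MvPolynomial σ B} {n : ℕ}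
    (hF : ∀ d < n, homogeneousComponent d F = 0) (f : B →+* R) (c : R) (y : σ → R) :
    c ^ n ∣ eval₂ f (fun i => c * y i) F := by
  rw [← sum_homogeneousComponent F, eval₂_sum]
  refine Finset.dvd_sum fun d _ => ?_
  by_cases hd : d < n
  · rw [hF d hd, eval₂_zero]
    exact dvd_zero _
  · rw [eval₂_smul_of_isHomogeneous (homogeneousComponent_isHomogeneous d F)]
    exact (pow_dvd_pow c (not_lt.1 hd)).mul_right _

end general

section field

variable {K : Type*} [Field K] [Infinite K] {σ : Type*}

theorem eval_homogeneousComponent_eq_zero {F : MvPolynomial σ K} {x : σ → K}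
    (h : ∀ c : K, eval (fun i => c * x i) F = 0) (d : ℕ) :
    eval x (homogeneousComponent d F) = 0 := by
  let p : Polynomial K := ∑ j ∈ Finset.range (F.totalDegree + 1),
    Polynomial.C (eval x (homogeneousComponent j F)) * Polynomial.X ^ j
  have hp : p = 0 := by
    apply Polynomial.funext
    intro c
    have := h c
    rw [← coe_aeval_eq_eval, RingHom.coe_coe, aeval_smul_eq_sum] at this
    simp only [p, Polynomial.eval_finsetSum, Polynomial.eval_mul, Polynomial.eval_C,
      Polynomial.eval_pow, Polynomial.eval_X, Polynomial.eval_zero]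
    rw [← this]
    refine Finset.sum_congr rfl fun j _ => ?_
    rw [mul_comm, ← coe_aeval_eq_eval, RingHom.coe_coe]
  by_cases hd : d ∈ Finset.range (F.totalDegree + 1)
  · have h1 : p.coeff d = eval x (homogeneousComponent d F) := by
      simp only [p, Polynomial.finsetSum_coeff, Polynomial.coeff_C_mul_X_pow]
      rw [Finset.sum_eq_single d]
      · simp
      · intro j _ hj
        simp [Ne.symm hj]
      · intro h; exact absurd hd h
    rw [← h1, hp, Polynomial.coeff_zero]
  · rw [homogeneousComponent_eq_zero d F (by simpa using hd)]
    simp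

theorem isHomogeneous_of_scaling {F : MvPolynomial σ K} {d : ℕ}
    (h : ∀ (c : K) (x : σ → K), eval (fun i => c * x i) F = c ^ d * eval x F) :
    F.IsHomogeneous d := by
  have key : F - homogeneousComponent d F = 0 := by
    apply MvPolynomial.funext
    intro x
    let p : Polynomial K := ∑ j ∈ Finset.range (F.totalDegree + 1),
      Polynomial.C (eval x (homogeneousComponent j F)) * Polynomial.X ^ j
    have hp : p = Polynomial.C (eval x F) * Polynomial.X ^ d := by
      apply Polynomial.funext
      intro c
      have := h c x
      rw [← coe_aeval_eq_eval, RingHom.coe_coe, aeval_smul_eq_sum] at this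
      simp only [p, Polynomial.eval_finsetSum, Polynomial.eval_mul, Polynomial.eval_C,
        Polynomial.eval_pow, Polynomial.eval_X]
      rw [mul_comm (eval x F), ← this]
      refine Finset.sum_congr rfl fun j _ => ?_
      rw [mul_comm, ← coe_aeval_eq_eval, RingHom.coe_coe]
    have h2 : p.coeff d = eval x (homogeneousComponent d F) := by
      simp only [p, Polynomial.finsetSum_coeff, Polynomial.coeff_C_mul_X_pow]
      by_cases hd : d ∈ Finset.range (F.totalDegree + 1)
      · rw [Finset.sum_eq_single d]
        · simp
        · intro j _ hj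
          simp [Ne.symm hj]
        · intro h; exact absurd hd h
      · rw [homogeneousComponent_eq_zero d F (by simpa using hd)]
        simp only [map_zero]
        refine Finset.sum_eq_zero fun j hj => ?_
        rw [if_neg]
        rintro rfl
        exact hd hj
    rw [hp] at h2
    simp only [Polynomial.coeff_C_mul_X_pow, if_true] at h2
    simp [h2]
  rw [sub_eq_zero] at key
  rw [key]
  exact homogeneousComponent_isHomogeneous d F

end field

end Pool.Agent.Lib.MP_1812d6_ag
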