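import Mathlib
import Pool.Agent.Lib.MP_1812d6_ag.Alg

/-!
# Scaling properties of the matrix
-/

set_option autoImplicit false

namespace Pool.Agent.Lib.MP_1812d6_ag

section map

variable {R S : Type*} [CommRing R] [CommRing S] (f : R →+* S) (o v : Fin 6 → R)

theorem map_two : f 2 = 2 := map_ofNat f 2
theorem map_three : f 3 = 3 := map_ofNat f 3
theorem map_c3 : f (c3 o) = c3 (fun i => f (o i)) := by simp [c3, map_two, map_three]
theorem map_c2 : f (c2 o v) = c2 (fun i => f (o i)) (fun i => f (v i)) := by simp [c2, map_two, map_three]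
theorem map_c1 : f (c1 o v) = c1 (fun i => f (o i)) (fun i => f (v i)) := by simp [c1, map_two, map_three]

theorem map_ep (j : Fin 4) : f (ep o j) = ep (fun i => f (o i)) j := by
  fin_cases j <;> simp [ep, map_two, map_three]
theorem map_mu (j : Fin 4) : f (mu o v j) = mu (fun i => f (o i)) (fun i => f (v i)) j := by
  fin_cases j <;> simp [mu, map_two, map_three]
theorem map_nu (j : Fin 4) : f (nu v j) = nu (fun i => f (v i)) j := by
  fin_cases j <;> simp [nu, map_two, map_three]
theorem map_h5 (j : Fin 4) : f (h5 o j) = h5 (fun i => f (o i)) j := by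
  fin_cases j <;> simp [h5, map_two, map_three]
theorem map_h4 (j : Fin 4) : f (h4 o v j) = h4 (fun i => f (o i)) (fun i => f (v i)) j := by
  fin_cases j <;> simp [h4, map_two, map_three]
theorem map_h3 (j : Fin 4) : f (h3 o v j) = h3 (fun i => f (o i)) (fun i => f (v i)) j := by
  fin_cases j <;> simp [h3, map_two, map_three]
theorem map_h2 (i j : Fin 4) :
    f (h2 o v i j) = h2 (fun i => f (o i)) (fun i => f (v i)) i j := by
  fin_cases i <;> fin_cases j <;> simp [h2, map_two, map_three]

theorem map_Nmat (i j : Fin 4) :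
    f (Nmat o v i j) = Nmat (fun i => f (o i)) (fun i => f (v i)) i j := by
  simp only [Nmat, map_sub, map_mul, map_add, map_pow, map_c3, map_c2, map_c1, map_ep, map_mu,
    map_nu, map_h5, map_h4, map_h3, map_h2]

theorem map_det_Nmat :
    f (Nmat o v).det = (Nmat (fun i => f (o i)) (fun i => f (v i))).det := by
  rw [RingHom.map_det]
  congr 1
  ext i j
  exact map_Nmat f o v i j

end map

section scale

variable {R : Type*} [CommRing R] (o v : Fin 6 → R) (c : R)

theorem c2_smul : c2 o (fun i => c * v i) = c * c2 o v := by simp [c2]; ring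
theorem c1_smul : c1 o (fun i => c * v i) = c ^ 2 * c1 o v := by simp [c1]; ring
theorem mu_smul (j : Fin 4) : mu o (fun i => c * v i) j = c * mu o v j := by
  fin_cases j <;> simp [mu] <;> ring
theorem nu_smul (j : Fin 4) : nu (fun i => c * v i) j = c ^ 2 * nu v j := by
  fin_cases j <;> simp [nu] <;> ring

/-- The degrees of the rows. -/
def rdeg : Fin 4 → ℕ := ![1, 1, 1, 2]

theorem Nmat_smul (i j : Fin 4) :
    Nmat o (fun i => c * v i) i j = c ^ rdeg i * Nmat o v i j := by
  have e2 : h2 o (fun i => c * v i) i j = c ^ rdeg i * h2 o v i j := by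
    fin_cases i <;> fin_cases j <;> simp [h2, rdeg] <;> ring
  have e3 : h3 o (fun i => c * v i) i = c ^ rdeg i * h3 o v i := by
    fin_cases i <;> simp [h3, rdeg] <;> ring
  have e4 : c * h4 o (fun i => c * v i) i = c ^ rdeg i * h4 o v i := by
    fin_cases i <;> simp [h4, rdeg] <;> ring
  have e5 : c ^ 2 * h5 o i = c ^ rdeg i * h5 o i := by
    fin_cases i <;> simp [h5, rdeg]
  rw [Nmat, Nmat, e2, e3, c2_smul, c1_smul, mu_smul, nu_smul]
  linear_combination (ep o j * c2 o v * c3 o - mu o v j * c3 o * c3 o) * e4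
    + (- ep o j * (c2 o v ^ 2 - c1 o v * c3 o) + mu o v j * c3 o * c2 o v
      - nu v j * c3 o ^ 2) * e5

theorem det_Nmat_smul : (Nmat o (fun i => c * v i)).det = c ^ 5 * (Nmat o v).det := by
  have : Nmat o (fun i => c * v i) = Matrix.of fun i j => c ^ rdeg i * Nmat o v i j := by
    ext i j
    exact Nmat_smul o v c i j
  rw [this, Matrix.det_mul_column, Fin.prod_univ_four]
  simp [rdeg]
  ring

theorem c3_smul_o : c3 (fun i => c * o i) = c ^ 3 * c3 o := by simp [c3]; ring
theorem c2_smul_o : c2 (fun i => c * o i) v = c ^ 2 * c2 o v := by simp [c2]; ring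
theorem c1_smul_o : c1 (fun i => c * o i) v = c * c1 o v := by simp [c1]; ring
theorem ep_smul_o (j : Fin 4) : ep (fun i => c * o i) j = c ^ 2 * ep o j := by
  fin_cases j <;> simp [ep] <;> ring
theorem mu_smul_o (j : Fin 4) : mu (fun i => c * o i) v j = c * mu o v j := by
  fin_cases j <;> simp [mu] <;> ring
theorem h5_smul_o (i : Fin 4) : h5 (fun i => c * o i) i = c ^ 5 * h5 o i := by
  fin_cases i <;> simp [h5] <;> ring
theorem h4_smul_o (i : Fin 4) : h4 (fun i => c * o i) v i = c ^ 4 * h4 o v i := by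
  fin_cases i <;> simp [h4] <;> ring
theorem h3_smul_o (i : Fin 4) : h3 (fun i => c * o i) v i = c ^ 3 * h3 o v i := by
  fin_cases i <;> simp [h3] <;> ring
theorem h2_smul_o (i j : Fin 4) : h2 (fun i => c * o i) v i j = c ^ 2 * h2 o v i j := by
  fin_cases i <;> fin_cases j <;> simp [h2] <;> ring

theorem Nmat_smul_o (i j : Fin 4) :
    Nmat (fun i => c * o i) v i j = c ^ 11 * Nmat o v i j := by
  rw [Nmat, Nmat, c3_smul_o, c2_smul_o, c1_smul_o, ep_smul_o, mu_smul_o, h5_smul_o, h4_smul_o,
    h3_smul_o, h2_smul_o]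
  ring

theorem det_Nmat_smul_o : (Nmat (fun i => c * o i) v).det = c ^ 44 * (Nmat o v).det := by
  have : Nmat (fun i => c * o i) v = Matrix.of fun i j => (fun _ => c ^ 11) i * Nmat o v i j := by
    ext i j
    exact Nmat_smul_o o v c i j
  rw [this, Matrix.det_mul_column, Fin.prod_univ_four]
  ring

end scale

theorem det_Nmat_base {R : Type*} [CommRing R] :
    (Nmat (![1, 0, 0, 1, 0, 0] : Fin 6 → R) ![0, 0, 0, 0, 0, 1]).det = 1 := by
  have : Nmat (![1, 0, 0, 1, 0, 0] : Fin 6 → R) ![0, 0, 0, 0, 0, 1]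
      = !![0, 0, 1, 0; 0, 0, 0, 1; 0, 1, 0, 0; -1, 0, 0, -1] := by
    ext i j
    fin_cases i <;> fin_cases j <;> simp [Nmat, h2, h3, h4, h5, ep, mu, nu, c3, c2, c1]
    norm_num
  rw [this]
  have h22 : Fin.succAbove (2 : Fin 4) 2 = 3 := by decide
  simp [Matrix.det_succ_row_zero, Fin.sum_univ_succ, h22]

end Pool.Agent.Lib.MP_1812d6_ag
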