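import Mathlib
import Pool.Agent.Lib.MP_1812d6_ag.Alg

set_option autoImplicit false

namespace Pool.Agent.Lib.MP_1812d6_ag

universe u

section line

variable {K : Type u} [Field K]

open MvPolynomial in
/-- The cubic equation. -/
noncomputable def Ge : MvPolynomial (Fin 6) K := X 3 ^ 3 + X 2 * X 3 * X 4 - X 1 * X 4 ^ 2

open MvPolynomial in
/-- Four further equations. -/
noncomputable def G : Fin 4 → MvPolynomial (Fin 6) K :=
  ![X 5 * X 1 * X 2 * X 3 - X 0 * (X 5 - X 0) * (X 3 ^ 2 + X 2 * X 4),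
    X 0 * (X 5 - X 0) * X 3 * X 4 - X 5 * X 1 * X 2 * X 4 + X 5 * X 2 ^ 2 * X 3,
    X 5 * X 2 * X 3 ^ 2 - X 0 * (X 5 - X 0) * X 4 ^ 2,
    X 5 ^ 2 * X 1 ^ 2 * X 2 - X 5 * X 0 * (X 5 - X 0) * (X 2 ^ 2 + X 1 * X 3)
      - X 0 ^ 2 * (X 5 - X 0) ^ 2 * X 4]

open Polynomial

theorem lineHom_X {m : ℕ} (o v : Fin m → K) (i : Fin m) :
    lineHom o v (MvPolynomial.X i) = C (v i) + C (o i) * X := by
  simp [lineHom]

theorem lineHom_Ge (o v : Fin 6 → K) :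
    lineHom o v Ge = C (c3 o) * X ^ 3 + C (c2 o v) * X ^ 2 + C (c1 o v) * X + C (c0 v) := by
  simp only [Ge, map_add, map_sub, map_mul, map_pow, lineHom_X, c3, c2, c1, c0, map_ofNat]
  ring

theorem lineHom_G (o v : Fin 6 → K) (hv : v 0 = 0) (i : Fin 4) :
    lineHom o v (G i) = C (h5 o i) * X ^ 5 + C (h4 o v i) * X ^ 4 + C (h3 o v i) * X ^ 3
      + C (h2s o v i) * X ^ 2 + C (h1 o v i) * X + C (h0 v i) := by
  have h2C : (C 2 : K[X]) = 2 := map_ofNat C 2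
  fin_cases i
  · simp [G, map_add, map_sub, map_mul, map_pow, lineHom_X, h5, h4, h3, h2s, h2, h1, h0, hv,
      h2C]
    ring
  · simp [G, map_add, map_sub, map_mul, map_pow, lineHom_X, h5, h4, h3, h2s, h2, h1, h0, hv,
      h2C]
    ring
  · simp [G, map_add, map_sub, map_mul, map_pow, lineHom_X, h5, h4, h3, h2s, h2, h1, h0, hv,
      h2C]
    ring
  · simp [G, map_add, map_sub, map_mul, map_pow, lineHom_X, h5, h4, h3, h2s, h2, h1, h0, hv,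
      h2C]
    ring

theorem coeff_quintic (b5 b4 b3 b2 b1 b0 : K) (P : K[X])
    (hP : P = C b5 * X ^ 5 + C b4 * X ^ 4 + C b3 * X ^ 3 + C b2 * X ^ 2 + C b1 * X + C b0) :
    P.coeff 5 = b5 ∧ P.coeff 4 = b4 ∧ P.coeff 3 = b3 ∧ P.coeff 2 = b2 := by
  subst hP
  refine ⟨?_, ?_, ?_, ?_⟩ <;> simp [coeff_X, coeff_C]

theorem coeff_rel {a3 a2 a1 a0 b5 b4 b3 b2 b1 b0 : K} (ha : a3 ≠ 0) (E : K[X])
    (h : (C a3 * X ^ 3 + C a2 * X ^ 2 + C a1 * X + C a0) * E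
      = C b5 * X ^ 5 + C b4 * X ^ 4 + C b3 * X ^ 3 + C b2 * X ^ 2 + C b1 * X + C b0) :
    a3 ^ 3 * b2 = a2 * (a3 ^ 2 * b3 - a2 * a3 * b4 + a2 ^ 2 * b5 - a1 * a3 * b5)
      + a1 * (a3 * (a3 * b4 - a2 * b5)) + a0 * (a3 ^ 2 * b5) := by
  have hA : (C a3 * X ^ 3 + C a2 * X ^ 2 + C a1 * X + C a0 : K[X]).natDegree = 3 :=
    natDegree_cubic ha
  have hA0 : (C a3 * X ^ 3 + C a2 * X ^ 2 + C a1 * X + C a0 : K[X]) ≠ 0 := by
    intro h0; rw [h0] at hA; simp at hA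
  have hdeg : E.natDegree < 3 := by
    by_cases hE : E = 0
    · simp [hE]
    have h1 : ((C a3 * X ^ 3 + C a2 * X ^ 2 + C a1 * X + C a0) * E).natDegree
        = 3 + E.natDegree := by rw [natDegree_mul hA0 hE, hA]
    have h2 : (C b5 * X ^ 5 + C b4 * X ^ 4 + C b3 * X ^ 3 + C b2 * X ^ 2 + C b1 * X
        + C b0 : K[X]).natDegree ≤ 5 := by compute_degree
    rw [h] at h1
    omega
  have hE : E = C (E.coeff 2) * X ^ 2 + C (E.coeff 1) * X + C (E.coeff 0) := by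
    conv_lhs => rw [E.as_sum_range_C_mul_X_pow' hdeg]
    simp [Finset.sum_range_succ]
    ring
  generalize E.coeff 2 = e2 at hE
  generalize E.coeff 1 = e1 at hE
  generalize E.coeff 0 = e0 at hE
  subst hE
  obtain ⟨p5, p4, p3, p2⟩ := coeff_quintic _ _ _ _ _ _ _ h
  obtain ⟨q5, q4, q3, q2⟩ := coeff_quintic (a3 * e2) (a3 * e1 + a2 * e2)
    (a3 * e0 + a2 * e1 + a1 * e2) (a2 * e0 + a1 * e1 + a0 * e2) (a1 * e0 + a0 * e1) (a0 * e0)
    ((C a3 * X ^ 3 + C a2 * X ^ 2 + C a1 * X + C a0) * (C e2 * X ^ 2 + C e1 * X + C e0))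
    (by simp only [map_add, map_mul]; ring)
  rw [← p5, ← p4, ← p3, ← p2, q5, q4, q3, q2]
  ring

theorem dvd_of_finrank {J : Ideal K[X]} {H : K[X]} (hH : H ∈ J) (hdeg : H.natDegree = 3)
    (hJ : 3 ≤ Module.finrank K (K[X] ⧸ J)) {F : K[X]} (hF : F ∈ J) : H ∣ F := by
  obtain ⟨g, rfl⟩ := (IsPrincipalIdealRing.principal J).principal
  rw [Ideal.submodule_span_eq] at *
  have hH0 : H ≠ 0 := by rintro rfl; simp at hdeg
  rw [Ideal.mem_span_singleton] at hH hF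
  obtain ⟨c, rfl⟩ := hH
  have hg0 : g ≠ 0 := left_ne_zero_of_mul hH0
  have hc0 : c ≠ 0 := right_ne_zero_of_mul hH0
  rw [finrank_quotient_span_eq_natDegree] at hJ
  rw [natDegree_mul hg0 hc0] at hdeg
  have hc : c.natDegree = 0 := by omega
  have hu : IsUnit c := by
    rw [eq_C_of_natDegree_eq_zero hc]
    apply IsUnit.map
    apply IsUnit.mk0
    intro h0
    apply hc0
    rw [eq_C_of_natDegree_eq_zero hc, h0, map_zero]
  exact (hu.mul_right_dvd).2 hF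

end line

end Pool.Agent.Lib.MP_1812d6_ag
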