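import Mathlib
import Pool.Agent.Lib.MP_1812d6_ag.Hom

/-!
# The cuspidal scroll lies on no quadric
-/

set_option autoImplicit false

namespace Pool.Agent.Lib.MP_1812d6_ag

open MvPolynomial

section quad

variable {B : Type*} [CommRing B]

theorem coeffs_eq_zero (a0 a1 a2 a3 a4 a5 a6 : B)
    (h : Polynomial.C a0 + Polynomial.C a1 * Polynomial.X + Polynomial.C a2 * Polynomial.X ^ 2
      + Polynomial.C a3 * Polynomial.X ^ 3 + Polynomial.C a4 * Polynomial.X ^ 4
      + Polynomial.C a5 * Polynomial.X ^ 5 + Polynomial.C a6 * Polynomial.X ^ 6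
      = (0 : Polynomial B)) :
    a0 = 0 ∧ a1 = 0 ∧ a2 = 0 ∧ a3 = 0 ∧ a4 = 0 ∧ a5 = 0 ∧ a6 = 0 := by
  refine ⟨?_, ?_, ?_, ?_, ?_, ?_, ?_⟩
  · simpa using congrArg (fun p => Polynomial.coeff p 0) h
  · simpa using congrArg (fun p => Polynomial.coeff p 1) h
  · simpa using congrArg (fun p => Polynomial.coeff p 2) h
  · simpa using congrArg (fun p => Polynomial.coeff p 3) h
  · simpa using congrArg (fun p => Polynomial.coeff p 4) h
  · simpa using congrArg (fun p => Polynomial.coeff p 5) h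
  · simpa using congrArg (fun p => Polynomial.coeff p 6) h

/-- The parametrization of the affine cuspidal scroll, in `B[T][U]`. -/
noncomputable def scr (B : Type*) [CommRing B] : Fin 5 → Polynomial (Polynomial B) :=
  ![1, Polynomial.X + Polynomial.C Polynomial.X, Polynomial.C (Polynomial.X ^ 2),
    Polynomial.X * Polynomial.C (Polynomial.X ^ 2), Polynomial.X * Polynomial.C (Polynomial.X ^ 3)]

theorem exists_lin {F : MvPolynomial (Fin 5) B} (hF : F.IsHomogeneous 1) :
    ∃ q : Fin 5 → B, F = ∑ i, C (q i) * X i := by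
  rw [← mem_homogeneousSubmodule, homogeneousSubmodule_one_eq_span_X,
    Submodule.mem_span_range_iff_exists_fun] at hF
  obtain ⟨c, hc⟩ := hF
  exact ⟨c, by rw [← hc]; simp [smul_eq_C_mul]⟩

theorem exists_quad {F : MvPolynomial (Fin 5) B} (hF : F.IsHomogeneous 2) :
    ∃ q : Fin 5 → Fin 5 → B, F = ∑ i, ∑ j, C (q i j) * X i * X j := by
  rw [← mem_homogeneousSubmodule, ← homogeneousSubmodule_one_pow, pow_two] at hF
  induction hF using Submodule.mul_induction_on' with
  | mem_mul_mem m hm n hn =>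
    obtain ⟨a, rfl⟩ := exists_lin ((mem_homogeneousSubmodule _ _).1 hm)
    obtain ⟨b, rfl⟩ := exists_lin ((mem_homogeneousSubmodule _ _).1 hn)
    refine ⟨fun i j => a i * b j, ?_⟩
    rw [Finset.sum_mul_sum]
    refine Finset.sum_congr rfl fun i _ => Finset.sum_congr rfl fun j _ => ?_
    rw [map_mul]; ring
  | add x hx y hy h1 h2 =>
    obtain ⟨a, ha⟩ := h1
    obtain ⟨b, hb⟩ := h2
    refine ⟨fun i j => a i j + b i j, ?_⟩
    rw [ha, hb, ← Finset.sum_add_distrib]
    refine Finset.sum_congr rfl fun i _ => ?_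
    rw [← Finset.sum_add_distrib]
    refine Finset.sum_congr rfl fun j _ => ?_
    rw [map_add]; ring

theorem lin_eq_zero {F : MvPolynomial (Fin 5) B} (hF : F.IsHomogeneous 1)
    (h : aeval (scr B) F = 0) : F = 0 := by
  obtain ⟨q, rfl⟩ := exists_lin hF
  have key : (Polynomial.C (Polynomial.C (q 0) + Polynomial.C (q 1) * Polynomial.X
        + Polynomial.C (q 2) * Polynomial.X ^ 2)
      + Polynomial.C (Polynomial.C (q 1) + Polynomial.C (q 3) * Polynomial.X ^ 2
        + Polynomial.C (q 4) * Polynomial.X ^ 3) * Polynomial.X :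
      Polynomial (Polynomial B)) = 0 := by
    rw [← h]
    simp only [scr, map_mul, aeval_C, aeval_X, Fin.sum_univ_five,
      Polynomial.algebraMap_apply, Algebra.algebraMap_self, RingHom.id_apply, map_add, map_pow,
      Matrix.cons_val]
    ring
  obtain ⟨hp0, hp1, -, -, -, -, -⟩ := coeffs_eq_zero (B := Polynomial B) _ _ 0 0 0 0 0 (by
    simpa only [map_zero, zero_mul, add_zero] using key)
  obtain ⟨a0, a1, a2, -, -, -, -⟩ := coeffs_eq_zero (B := B) _ _ _ 0 0 0 0 (by
    simpa only [map_zero, zero_mul, add_zero] using hp0)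
  obtain ⟨-, -, a3, a4, -, -, -⟩ := coeffs_eq_zero (B := B) (q 1) 0 (q 3) (q 4) 0 0 0 (by
    simpa only [map_zero, zero_mul, add_zero] using hp1)
  simp [Fin.sum_univ_five, a0, a1, a2, a3, a4]

theorem quad_eq_zero {F : MvPolynomial (Fin 5) B} (hF : F.IsHomogeneous 2)
    (h : aeval (scr B) F = 0) : F = 0 := by
  obtain ⟨q, rfl⟩ := exists_quad hF
  have key : (Polynomial.C (Polynomial.C (q 0 0) + Polynomial.C (q 0 1 + q 1 0) * Polynomial.X
        + Polynomial.C (q 0 2 + q 2 0 + q 1 1) * Polynomial.X ^ 2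
        + Polynomial.C (q 1 2 + q 2 1) * Polynomial.X ^ 3
        + Polynomial.C (q 2 2) * Polynomial.X ^ 4)
      + Polynomial.C (Polynomial.C (q 0 1 + q 1 0) + Polynomial.C (q 1 1 + q 1 1) * Polynomial.X
        + Polynomial.C (q 0 3 + q 3 0 + q 1 2 + q 2 1) * Polynomial.X ^ 2
        + Polynomial.C (q 0 4 + q 4 0 + q 1 3 + q 3 1) * Polynomial.X ^ 3
        + Polynomial.C (q 1 4 + q 4 1 + q 2 3 + q 3 2) * Polynomial.X ^ 4
        + Polynomial.C (q 2 4 + q 4 2) * Polynomial.X ^ 5) * Polynomial.X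
      + Polynomial.C (Polynomial.C (q 1 1) + Polynomial.C (q 1 3 + q 3 1) * Polynomial.X ^ 2
        + Polynomial.C (q 1 4 + q 4 1) * Polynomial.X ^ 3
        + Polynomial.C (q 3 3) * Polynomial.X ^ 4
        + Polynomial.C (q 3 4 + q 4 3) * Polynomial.X ^ 5
        + Polynomial.C (q 4 4) * Polynomial.X ^ 6) * Polynomial.X ^ 2 :
      Polynomial (Polynomial B)) = 0 := by
    rw [← h]
    simp only [scr, map_mul, aeval_C, aeval_X, Fin.sum_univ_five,
      Polynomial.algebraMap_apply, Algebra.algebraMap_self, RingHom.id_apply, map_add, map_pow,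
      Matrix.cons_val]
    ring
  obtain ⟨hp0, hp1, hp2, -, -, -, -⟩ := coeffs_eq_zero (B := Polynomial B) _ _ _ 0 0 0 0 (by
    simpa only [map_zero, zero_mul, add_zero] using key)
  obtain ⟨a0, a1, a2, a3, a4, -, -⟩ := coeffs_eq_zero (B := B) _ _ _ _ _ 0 0 (by
    simpa only [map_zero, zero_mul, add_zero] using hp0)
  obtain ⟨b0, b1, b2, b3, b4, b5, -⟩ := coeffs_eq_zero (B := B) _ _ _ _ _ _ 0 (by
    simpa only [map_zero, zero_mul, add_zero] using hp1)
  obtain ⟨c0, -, c2, c3, c4, c5, c6⟩ := coeffs_eq_zero (B := B) (q 1 1) 0 _ _ _ _ _ (by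
    simpa only [map_zero, zero_mul, add_zero] using hp2)
  have d02 : q 0 2 + q 2 0 = 0 := by linear_combination a2 - c0
  have d03 : q 0 3 + q 3 0 = 0 := by linear_combination b2 - a3
  have d04 : q 0 4 + q 4 0 = 0 := by linear_combination b3 - c2
  have d23 : q 2 3 + q 3 2 = 0 := by linear_combination b4 - c3
  have conv : ∀ {a b : B}, a + b = 0 →
      (C a : MvPolynomial (Fin 5) B) + C b = 0 := by
    intro a b hab
    rw [← map_add, hab, map_zero]
  simp only [Fin.sum_univ_five, a0, a4, c0, c4, c6, map_zero, zero_mul, zero_add, add_zero]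
  linear_combination X 0 * X 1 * conv a1 + X 0 * X 2 * conv d02 + X 0 * X 3 * conv d03
    + X 0 * X 4 * conv d04 + X 1 * X 2 * conv a3 + X 1 * X 3 * conv c2 + X 1 * X 4 * conv c3
    + X 2 * X 3 * conv d23 + X 2 * X 4 * conv b5 + X 3 * X 4 * conv c5

end quad

end Pool.Agent.Lib.MP_1812d6_ag
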