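import Mathlib
import Pool.Agent.Lib.MP_1812d6_ag.Defs
import Pool.Agent.Lib.MP_1812d6_ag.Hom
import Pool.Agent.Lib.MP_1812d6_ag.Scroll
import Pool.Agent.Lib.MP_1812d6_ag.Poly

/-!
# The threefold
-/

set_option autoImplicit false

namespace Pool.Agent.Lib.MP_1812d6_ag

open MvPolynomial

universe u

/-- The parametrization of the affine cone over the threefold. -/
def psi {R : Type*} [CommRing R] (s t u w : R) : Fin 6 → R :=
  ![s * t, s * t * (1 - t) * (u + w), s * t * (1 - t) * w ^ 2, s * t * (1 - t) * (u * w ^ 2),
    s * t * (1 - t) * (u * w ^ 3), s]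

variable (K : Type u) [Field K]

/-- The corresponding ring homomorphism. -/
noncomputable def Psi : MvPolynomial (Fin 6) K →ₐ[K] MvPolynomial (Fin 4) K :=
  aeval (psi (X 0) (X 1) (X 2) (X 3))

/-- The ideal of the threefold. -/
noncomputable def I3 : Ideal (MvPolynomial (Fin 6) K) := RingHom.ker (Psi K)

variable {K}

theorem mem_I3_iff {F : MvPolynomial (Fin 6) K} : F ∈ I3 K ↔ Psi K F = 0 := RingHom.mem_ker

theorem isPrime_I3 : (I3 K).IsPrime := RingHom.ker_isPrime (Psi K)

theorem aeval_psi_eq_zero {F : MvPolynomial (Fin 6) K} (hF : F ∈ I3 K) {R : Type*} [CommRing R]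
    [Algebra K R] (s t u w : R) : aeval (psi s t u w) F = 0 := by
  have h : (aeval ![s, t, u, w]).comp (Psi K) = aeval (psi s t u w) := by
    apply MvPolynomial.algHom_ext
    intro i
    fin_cases i <;> simp [Psi, psi]
  rw [← h, AlgHom.comp_apply, mem_I3_iff.1 hF, map_zero]

theorem eval_Psi (x : Fin 4 → K) (F : MvPolynomial (Fin 6) K) :
    eval x (Psi K F) = eval (psi (x 0) (x 1) (x 2) (x 3)) F := by
  have h : (aeval x).comp (Psi K) = aeval (psi (x 0) (x 1) (x 2) (x 3)) := by
    apply MvPolynomial.algHom_ext
    intro i
    fin_cases i <;> simp [Psi, psi]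
  have := DFunLike.congr_fun h F
  simpa [coe_aeval_eq_eval] using this

theorem mem_I3_iff_eval [Infinite K] {F : MvPolynomial (Fin 6) K} :
    F ∈ I3 K ↔ ∀ s t u w : K, eval (psi s t u w) F = 0 := by
  constructor
  · intro hF s t u w
    have := aeval_psi_eq_zero hF s t u w
    simpa [coe_aeval_eq_eval] using this
  · intro h
    rw [mem_I3_iff]
    apply MvPolynomial.funext
    intro x
    rw [eval_Psi, h, map_zero]

theorem isHomogeneous_I3 [Infinite K] (F : MvPolynomial (Fin 6) K) (hF : F ∈ I3 K) (d : ℕ) :
    homogeneousComponent d F ∈ I3 K := by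
  rw [mem_I3_iff_eval] at hF ⊢
  intro s t u w
  apply eval_homogeneousComponent_eq_zero
  intro c
  rw [← hF (c * s) t u w]
  congr 2
  funext i
  fin_cases i <;> simp [psi] <;> ring

theorem Ge_mem : Ge ∈ I3 K := by
  rw [mem_I3_iff]
  simp [Psi, psi, Ge]
  ring

theorem G_mem (i : Fin 4) : G i ∈ I3 K := by
  rw [mem_I3_iff]
  fin_cases i
  · simp [Psi, psi, G]
    ring
  · simp [Psi, psi, G]
    ring
  · simp [Psi, psi, G]
    ring
  · simp [Psi, psi, G]
    ring

/-! ### Orders at the two special points -/

section split

variable {B : Type*} [CommRing B] [Algebra K B]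

/-- The homomorphism from the polynomial ring in six variables over `K` to the polynomial ring in
five variables over `B` sending the last variable to `b`. -/
noncomputable def split5 (b : B) : MvPolynomial (Fin 6) K →ₐ[K] MvPolynomial (Fin 5) B :=
  aeval ![X 0, X 1, X 2, X 3, X 4, C b]

theorem aeval_scr_eq_zero [IsDomain B] (b : B) (hb : b ≠ 0) {F : MvPolynomial (Fin 6) K}
    (hF : F ∈ I3 K) (d : ℕ) (hd : ∀ j < d, homogeneousComponent j (split5 b F) = 0) :
    aeval (scr B) (homogeneousComponent d (split5 b F)) = 0 := by
  let s0 : Polynomial (Polynomial B) := Polynomial.C (Polynomial.C b)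
  let z : Polynomial (Polynomial (Polynomial B)) := Polynomial.C s0 * (1 - Polynomial.X)
  let y : Fin 5 → Polynomial (Polynomial (Polynomial B)) := ![Polynomial.C s0,
    z * Polynomial.C (scr B 1), z * Polynomial.C (scr B 2), z * Polynomial.C (scr B 3),
    z * Polynomial.C (scr B 4)]
  have h0 : aeval (fun i => Polynomial.X * y i) (split5 b F) = 0 := by
    rw [← aeval_psi_eq_zero hF (Polynomial.C s0) Polynomial.X
      (Polynomial.C Polynomial.X) (Polynomial.C (Polynomial.C Polynomial.X))]
    have : ((aeval (fun i => Polynomial.X * y i)).restrictScalars K).comp (split5 b)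
        = aeval (psi (Polynomial.C s0) Polynomial.X
          (Polynomial.C Polynomial.X) (Polynomial.C (Polynomial.C Polynomial.X))) := by
      apply MvPolynomial.algHom_ext
      intro i
      fin_cases i
      · simp [split5, psi, y]
      · simp [split5, psi, y, z, scr]; ring
      · simp [split5, psi, y, z, scr]; ring
      · simp [split5, psi, y, z, scr]; ring
      · simp [split5, psi, y, z, scr]; ring
      · simp [split5, psi, y, s0]
    exact DFunLike.congr_fun this F
  replace h0 := (aeval_smul_eq_sum (split5 b F) Polynomial.X y).symm.trans h0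
  have h1 := congrArg (fun p => Polynomial.coeff p d) h0
  simp only [Polynomial.finsetSum_coeff, Polynomial.coeff_X_pow_mul', Polynomial.coeff_zero] at h1
  by_cases hdr : d ∈ Finset.range ((split5 b F).totalDegree + 1)
  · rw [Finset.sum_eq_single d] at h1
    · simp only [le_refl, if_true, Nat.sub_self] at h1
      rw [Polynomial.coeff_zero_eq_eval_zero] at h1
      have h2 : Polynomial.eval 0 (aeval y (homogeneousComponent d (split5 b F)))
          = aeval (fun i => s0 * scr B i) (homogeneousComponent d (split5 b F)) := by
        have : ((Polynomial.aeval (0 : Polynomial (Polynomial B))).restrictScalars B).comp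
            (aeval y) = aeval (fun i => s0 * scr B i) := by
          apply MvPolynomial.algHom_ext
          intro i
          fin_cases i <;> simp [y, z, scr]
        exact DFunLike.congr_fun this _
      rw [h2, aeval_smul_of_isHomogeneous (homogeneousComponent_isHomogeneous d _)] at h1
      have hs0 : s0 ≠ 0 := by
        simp [s0, hb]
      exact (mul_eq_zero.1 h1).resolve_left (pow_ne_zero d hs0)
    · intro j _ hj
      rcases lt_or_gt_of_ne hj with h | h
      · rw [hd j h]; simp
      · rw [if_neg (not_le.2 h)]
    · intro h; exact absurd hdr h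
  · rw [homogeneousComponent_eq_zero d _ (by simpa using hdr)]
    simp

theorem components_eq_zero [IsDomain B] (b : B) (hb : b ≠ 0) {F : MvPolynomial (Fin 6) K}
    (hF : F ∈ I3 K) : ∀ d < 3, homogeneousComponent d (split5 b F) = 0 := by
  have h0 : homogeneousComponent 0 (split5 b F) = 0 := by
    have := aeval_scr_eq_zero b hb hF 0 (by simp)
    rw [homogeneousComponent_zero, aeval_C] at this
    rw [homogeneousComponent_zero]
    have h1 : coeff 0 (split5 b F) = 0 := by
      simpa [Polynomial.algebraMap_apply] using this
    rw [h1, map_zero]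
  have h1 : homogeneousComponent 1 (split5 b F) = 0 := by
    apply lin_eq_zero (homogeneousComponent_isHomogeneous 1 _)
    apply aeval_scr_eq_zero b hb hF 1
    intro j hj
    interval_cases j
    exact h0
  have h2 : homogeneousComponent 2 (split5 b F) = 0 := by
    apply quad_eq_zero (homogeneousComponent_isHomogeneous 2 _)
    apply aeval_scr_eq_zero b hb hF 2
    intro j hj
    interval_cases j
    · exact h0
    · exact h1
  intro d hd
  interval_cases d
  · exact h0
  · exact h1
  · exact h2

end split

/-- Restrictions of the equations to lines through the first special point vanish to order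
three there. -/
theorem X_pow_dvd_lineHom {F : MvPolynomial (Fin 6) K} (hF : F ∈ I3 K) (o : Fin 6 → K) (a : K) :
    Polynomial.X ^ 3 ∣ lineHom o (Pi.single 5 a) F := by
  have h := pow_dvd_eval₂ (components_eq_zero (Polynomial.X : Polynomial K)
    Polynomial.X_ne_zero hF)
    (Polynomial.eval₂RingHom Polynomial.C (Polynomial.C a + Polynomial.C (o 5) * Polynomial.X))
    Polynomial.X ![Polynomial.C (o 0), Polynomial.C (o 1), Polynomial.C (o 2),
      Polynomial.C (o 3), Polynomial.C (o 4)]
  convert h using 1
  have : (lineHom o (Pi.single 5 a) : MvPolynomial (Fin 6) K →ₐ[K] Polynomial K).toRingHom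
    = (eval₂Hom
      (Polynomial.eval₂RingHom Polynomial.C (Polynomial.C a + Polynomial.C (o 5) * Polynomial.X))
      (fun i => Polynomial.X * (![Polynomial.C (o 0), Polynomial.C (o 1), Polynomial.C (o 2),
      Polynomial.C (o 3), Polynomial.C (o 4)] : Fin 5 → Polynomial K) i)).comp
        (split5 (Polynomial.X : Polynomial K)).toRingHom := by
    apply MvPolynomial.ringHom_ext
    · intro r
      simp [lineHom, split5]
    · intro i
      fin_cases i <;> simp [lineHom, split5]
  exact DFunLike.congr_fun this F

end Pool.Agent.Lib.MP_1812d6_ag
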