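import Mathlib
import Pool.Agent.Lib.MP_1812d6_ag.Variety
import Pool.Agent.Lib.MP_1812d6_ag.Dim

/-!
# The threefold: dimension, nondegeneracy, the second special point
-/

set_option autoImplicit false

namespace Pool.Agent.Lib.MP_1812d6_ag

open MvPolynomial

universe u

variable {K : Type u} [Field K]

/-- The involution exchanging the two special points. -/
noncomputable def iota : MvPolynomial (Fin 6) K →ₐ[K] MvPolynomial (Fin 6) K :=
  aeval ![X 5 - X 0, X 1, X 2, X 3, X 4, X 5]

theorem iota_mem [Infinite K] {F : MvPolynomial (Fin 6) K} (hF : F ∈ I3 K) : iota F ∈ I3 K := by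
  rw [mem_I3_iff_eval] at hF ⊢
  intro s t u w
  rw [← hF s (1 - t) u w]
  have : (aeval (psi s t u w)).comp iota = (aeval (psi s (1 - t) u w) :
      MvPolynomial (Fin 6) K →ₐ[K] K) := by
    apply MvPolynomial.algHom_ext
    intro i
    fin_cases i
    · simp [iota, psi]; ring
    · simp [iota, psi]; left; ring
    · simp [iota, psi]; left; ring
    · simp [iota, psi]; left; ring
    · simp [iota, psi]; left; ring
    · simp [iota, psi]
  exact DFunLike.congr_fun this F

theorem X_pow_dvd_lineHom' [Infinite K] {F : MvPolynomial (Fin 6) K} (hF : F ∈ I3 K)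
    (o : Fin 6 → K) (a : K) :
    Polynomial.X ^ 3 ∣ lineHom o ![a, 0, 0, 0, 0, a] F := by
  have h := X_pow_dvd_lineHom (iota_mem hF) ![o 5 - o 0, o 1, o 2, o 3, o 4, o 5] a
  convert h using 1
  have : (lineHom o ![a, 0, 0, 0, 0, a] : MvPolynomial (Fin 6) K →ₐ[K] Polynomial K)
    = (lineHom ![o 5 - o 0, o 1, o 2, o 3, o 4, o 5] (Pi.single 5 a)).comp iota := by
    apply MvPolynomial.algHom_ext
    intro i
    fin_cases i
    · simp [lineHom, iota]; ring
    all_goals simp [lineHom, iota]
  exact DFunLike.congr_fun this F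

theorem exists_lin6 {F : MvPolynomial (Fin 6) K} (hF : F.IsHomogeneous 1) :
    ∃ q : Fin 6 → K, F = ∑ i, C (q i) * X i := by
  rw [← mem_homogeneousSubmodule, homogeneousSubmodule_one_eq_span_X,
    Submodule.mem_span_range_iff_exists_fun] at hF
  obtain ⟨c, hc⟩ := hF
  exact ⟨c, by rw [← hc]; simp [smul_eq_C_mul]⟩

theorem isNondegenerate_I3 [CharZero K] : IsNondegenerate (N := 5) (I3 K) := by
  intro F hF hF1
  obtain ⟨q, rfl⟩ := exists_lin6 hF1
  rw [mem_I3_iff_eval] at hF
  have h : ∀ s t u w : K, q 0 * (s * t) + q 1 * (s * t * (1 - t) * (u + w))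
      + q 2 * (s * t * (1 - t) * w ^ 2) + q 3 * (s * t * (1 - t) * (u * w ^ 2))
      + q 4 * (s * t * (1 - t) * (u * w ^ 3)) + q 5 * s = 0 := by
    intro s t u w
    rw [← hF s t u w, Fin.sum_univ_six]
    simp only [map_add, map_mul, eval_C, eval_X]
    rfl
  have h5 := h 1 0 0 0
  have h0 := h 1 1 0 0
  have h1 := h 1 2 1 0
  have h2 := h 1 2 0 1
  have h3 := h 1 2 1 1
  have h4 := h 1 2 1 (-1)
  norm_num at h5 h0 h1 h2 h3 h4
  have e5 : q 5 = 0 := h5
  have e0 : q 0 = 0 := by linear_combination h0 - h5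
  have e1 : q 1 = 0 := by
    have : (2 : K) * q 1 = 0 := by linear_combination -h1 + 2 * e0 + e5
    simpa using this
  have e2 : q 2 = 0 := by
    have : (2 : K) * q 2 = 0 := by linear_combination -h2 + 2 * e0 + e5 - 2 * e1
    simpa using this
  have e34 : q 3 + q 4 = 0 := by
    have : (2 : K) * (q 3 + q 4) = 0 := by
      linear_combination -h3 + 2 * e0 + e5 - 4 * e1 - 2 * e2
    simpa using this
  have e34' : q 3 - q 4 = 0 := by
    have : (2 : K) * (q 3 - q 4) = 0 := by
      linear_combination -h4 + 2 * e0 + e5 - 2 * e2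
    simpa using this
  have e3 : q 3 = 0 := by
    have : (2 : K) * q 3 = 0 := by linear_combination e34 + e34'
    simpa using this
  have e4 : q 4 = 0 := by linear_combination e34 - e3
  simp [Fin.sum_univ_six, e0, e1, e2, e3, e4, e5]

theorem dim_I3 : ringKrullDim (MvPolynomial (Fin 6) K ⧸ I3 K) = (4 : ℕ) := by
  have := isPrime_I3 (K := K)
  apply ringKrullDim_eq_of_trdeg K
  let g : (MvPolynomial (Fin 6) K ⧸ I3 K) →ₐ[K] MvPolynomial (Fin 4) K := Ideal.kerLiftAlg (Psi K)
  have hg : Function.Injective g := Ideal.kerLiftAlg_injective (Psi K)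
  let := g.toRingHom.toAlgebra
  have hmap : ∀ F : MvPolynomial (Fin 6) K,
      algebraMap (MvPolynomial (Fin 6) K ⧸ I3 K) (MvPolynomial (Fin 4) K)
        (Ideal.Quotient.mk (I3 K) F) = Psi K F := fun F => rfl
  have : IsScalarTower K (MvPolynomial (Fin 6) K ⧸ I3 K) (MvPolynomial (Fin 4) K) :=
    IsScalarTower.of_algebraMap_eq fun x => (g.commutes x).symm
  have : FaithfulSMul (MvPolynomial (Fin 6) K ⧸ I3 K) (MvPolynomial (Fin 4) K) :=
    (faithfulSMul_iff_algebraMap_injective _ _).2 hg
  have halg : Algebra.IsAlgebraic (MvPolynomial (Fin 6) K ⧸ I3 K) (MvPolynomial (Fin 4) K) := by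
    have key : ∀ (F G : MvPolynomial (Fin 6) K) (z : MvPolynomial (Fin 4) K),
        Psi K F * z = Psi K G → Psi K F ≠ 0 →
        IsAlgebraic (MvPolynomial (Fin 6) K ⧸ I3 K) z := by
      intro F G z h hF
      refine ⟨Polynomial.C (Ideal.Quotient.mk (I3 K) F) * Polynomial.X
        - Polynomial.C (Ideal.Quotient.mk (I3 K) G), ?_, ?_⟩
      · intro h0
        have := congrArg (fun p => Polynomial.coeff p 1) h0
        simp [Ideal.Quotient.eq_zero_iff_mem, mem_I3_iff, Polynomial.coeff_C] at this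
        exact hF this
      · simp [hmap, h]
    have hX : ∀ i : Fin 4, IsAlgebraic (MvPolynomial (Fin 6) K ⧸ I3 K)
        (X i : MvPolynomial (Fin 4) K) := by
      have h1 : (1 - X 1 : MvPolynomial (Fin 4) K) ≠ 0 := by
        intro h
        have := congrArg (eval (fun _ => (0 : K))) h
        simp at this
      intro i
      fin_cases i
      · exact key 1 (X 5) _ (by simp [Psi, psi]) (by simp)
      · exact key (X 5) (X 0) _ (by simp [Psi, psi]) (by simp [Psi, psi, X_ne_zero])
      · exact key (X 2) (X 3) _ (by simp [Psi, psi]; ring) (by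
          simp [Psi, psi, X_ne_zero, h1])
      · exact key (X 3) (X 4) _ (by simp [Psi, psi]; ring) (by
          simp [Psi, psi, X_ne_zero, h1])
    refine ⟨fun p => ?_⟩
    induction p using MvPolynomial.induction_on with
    | C a =>
      have : (C a : MvPolynomial (Fin 4) K) = algebraMap (MvPolynomial (Fin 6) K ⧸ I3 K)
        (MvPolynomial (Fin 4) K) (Ideal.Quotient.mk (I3 K) (C a)) := by
        rw [hmap]; simp [Psi]
      rw [this]
      exact isAlgebraic_algebraMap _
    | add p q hp hq => exact hp.add hq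
    | mul_X p i hp => exact hp.mul (hX i)
  have h2 := trdeg_add_eq K (MvPolynomial (Fin 6) K ⧸ I3 K) (A := MvPolynomial (Fin 4) K)
  have h3 : Algebra.trdeg (MvPolynomial (Fin 6) K ⧸ I3 K) (MvPolynomial (Fin 4) K) = 0 :=
    trdeg_eq_zero
  have h4 := MvPolynomial.trdeg_of_isDomain (ι := Fin 4) (S := K)
  rw [h3, h4, add_zero] at h2
  simpa using h2

theorem isVarietyIdeal_I3 [Infinite K] : IsVarietyIdeal 5 3 (I3 K) where
  isPrime := isPrime_I3
  isHomogeneous := isHomogeneous_I3
  dim := by
    rw [dim_I3]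
    norm_num

end Pool.Agent.Lib.MP_1812d6_ag
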