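import Mathlib
import Pool.Agent.Lib.MP_1812d6_ag.Variety2
import Pool.Agent.Lib.MP_1812d6_ag.Mat

/-!
# The special point is isolated in the triple locus
-/

set_option autoImplicit false

namespace Pool.Agent.Lib.MP_1812d6_ag

open MvPolynomial

open scoped LinearAlgebra.Projectivization Topology

universe u

variable {K : Type u} [Field K]

theorem eq_zero_of_dvd (o v : Fin 6 → K) (hv0 : v 0 = 0) (hc : c3 o ≠ 0)
    (hdiv : ∀ i, lineHom o v Ge ∣ lineHom o v (G i)) (hdet : (Nmat o v).det ≠ 0) :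
    v 1 = 0 ∧ v 2 = 0 ∧ v 3 = 0 ∧ v 4 = 0 := by
  have h : (Nmat o v).mulVec ![v 1, v 2, v 3, v 4] = 0 := by
    ext i
    obtain ⟨E, hE⟩ := hdiv i
    rw [lineHom_Ge, lineHom_G o v hv0] at hE
    exact Nmat_mulVec o v i (coeff_rel hc E hE.symm)
  have h2 := Matrix.eq_zero_of_mulVec_eq_zero hdet h
  refine ⟨?_, ?_, ?_, ?_⟩
  · simpa using congrFun h2 0
  · simpa using congrFun h2 1
  · simpa using congrFun h2 2
  · simpa using congrFun h2 3

theorem lineHom_shift (o v : Fin 6 → K) (c : K) (F : MvPolynomial (Fin 6) K) :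
    lineHom o (v - c • o) F = (lineHom o v F).comp (Polynomial.X - Polynomial.C c) := by
  have : lineHom o (v - c • o)
      = (Polynomial.aeval (Polynomial.X - Polynomial.C c)).comp (lineHom o v) := by
    apply MvPolynomial.algHom_ext
    intro i
    simp [lineHom]
    ring
  rw [this]
  rfl

theorem dvd_shift (o v : Fin 6 → K) (c : K) (F H : MvPolynomial (Fin 6) K)
    (h : lineHom o v H ∣ lineHom o v F) :
    lineHom o (v - c • o) H ∣ lineHom o (v - c • o) F := by
  rw [lineHom_shift, lineHom_shift]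
  obtain ⟨E, hE⟩ := h
  rw [hE, Polynomial.mul_comp]
  exact dvd_mul_right _ _

theorem natDegree_Ge (o v : Fin 6 → K) (hc : c3 o ≠ 0) : (lineHom o v Ge).natDegree = 3 := by
  rw [lineHom_Ge]
  exact Polynomial.natDegree_cubic hc

theorem three_le_fibreDegree (o v : Fin 6 → K) (hc : c3 o ≠ 0)
    (h : ∀ F ∈ I3 K, Polynomial.X ^ 3 ∣ lineHom o v F) : 3 ≤ fibreDegree (I3 K) o v := by
  have hne : lineHom o v Ge ≠ 0 := by
    intro h0
    have := natDegree_Ge o v hc
    rw [h0] at this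
    simp at this
  have hmem : lineHom o v Ge ∈ (I3 K).map (lineHom o v) := Ideal.mem_map_of_mem _ Ge_mem
  have hle : (I3 K).map (lineHom o v) ≤ Ideal.span {Polynomial.X ^ 3} := by
    rw [Ideal.map_le_iff_le_comap]
    intro F hF
    rw [Ideal.mem_comap, Ideal.mem_span_singleton]
    exact h F hF
  obtain ⟨g, hg⟩ := (IsPrincipalIdealRing.principal ((I3 K).map (lineHom o v))).principal
  rw [Ideal.submodule_span_eq] at hg
  have hg0 : g ≠ 0 := by
    rintro rfl
    rw [hg] at hmem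
    simp at hmem
    exact hne hmem
  have hgX : Polynomial.X ^ 3 ∣ g := by
    rw [← Ideal.mem_span_singleton]
    apply hle
    rw [hg]
    exact Ideal.mem_span_singleton_self g
  rw [fibreDegree, hg, finrank_quotient_span_eq_natDegree]
  have := Polynomial.natDegree_le_of_dvd hgX hg0
  simpa using this

theorem dvd_of_fibreDegree (o v : Fin 6 → K) (hc : c3 o ≠ 0)
    (h : 3 ≤ fibreDegree (I3 K) o v) (F : MvPolynomial (Fin 6) K) (hF : F ∈ I3 K) :
    lineHom o v Ge ∣ lineHom o v F :=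
  dvd_of_finrank (Ideal.mem_map_of_mem _ Ge_mem) (natDegree_Ge o v hc) h
    (Ideal.mem_map_of_mem _ hF)

/-! ### The Zariski topology -/

theorem isOpen_basic {m d : ℕ} {F : MvPolynomial (Fin m) K} (hF : F.IsHomogeneous d) :
    IsOpen[zariski K m] {x | eval x.rep F ≠ 0} :=
  TopologicalSpace.isOpen_generateFrom_of_mem ⟨d, F, hF, rfl⟩

theorem exists_basic {m : ℕ} {U : Set (ℙ K (Fin m → K))} (hU : IsOpen[zariski K m] U)
    {x : ℙ K (Fin m → K)} (hx : x ∈ U) : ∃ (d : ℕ) (F : MvPolynomial (Fin m) K),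
      F.IsHomogeneous d ∧ eval x.rep F ≠ 0 ∧ ∀ y : ℙ K (Fin m → K), eval y.rep F ≠ 0 → y ∈ U := by
  induction hU with
  | basic s hs =>
    obtain ⟨d, F, hF, rfl⟩ := hs
    exact ⟨d, F, hF, hx, fun y hy => hy⟩
  | univ => exact ⟨0, 1, isHomogeneous_one _ _, by simp, fun y _ => Set.mem_univ y⟩
  | inter s t _ _ ihs iht =>
    obtain ⟨d, F, hF, h1, h2⟩ := ihs hx.1
    obtain ⟨e, G, hG, h3, h4⟩ := iht hx.2
    refine ⟨d + e, F * G, hF.mul hG, ?_, ?_⟩
    · rw [map_mul]; exact mul_ne_zero h1 h3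
    · intro y hy
      rw [map_mul] at hy
      exact ⟨h2 y (left_ne_zero_of_mul hy), h4 y (right_ne_zero_of_mul hy)⟩
  | sUnion S _ ih =>
    obtain ⟨t, ht, hxt⟩ := hx
    obtain ⟨d, F, hF, h1, h2⟩ := ih t ht hxt
    exact ⟨d, F, hF, h1, fun y hy => ⟨t, ht, h2 y hy⟩⟩

theorem eval_rep_ne_zero {m d : ℕ} {F : MvPolynomial (Fin m) K} (hF : F.IsHomogeneous d)
    {x : Fin m → K} (hx : x ≠ 0) :
    eval (Projectivization.mk K x hx).rep F ≠ 0 ↔ eval x F ≠ 0 := by
  obtain ⟨a, ha⟩ := Projectivization.exists_smul_eq_mk_rep K x hx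
  have h : eval (Projectivization.mk K x hx).rep F = (a : K) ^ d * eval x F := by
    have := aeval_smul_of_isHomogeneous (R := K) hF (a : K) x
    rw [← ha]
    simpa [coe_aeval_eq_eval, Units.smul_def, Pi.smul_def] using this
  rw [h]
  simp

theorem isOpen_ne {m : ℕ} (y : ℙ K (Fin m → K)) : IsOpen[zariski K m] {x | x ≠ y} := by
  have h : {x | x ≠ y} = ⋃ i : Fin m, ⋃ j : Fin m, {x : ℙ K (Fin m → K) |
      eval x.rep (C (y.rep j) * X i - C (y.rep i) * X j) ≠ 0} := by
    ext x
    simp only [Set.mem_ofPred_eq, Set.mem_iUnion, map_sub, map_mul, eval_C, eval_X]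
    constructor
    · intro hxy
      by_contra! hcon
      apply hxy
      obtain ⟨j, hj⟩ : ∃ j, y.rep j ≠ 0 := by
        by_contra! h
        exact y.rep_nonzero (funext h)
      rw [← Projectivization.mk_rep x, ← Projectivization.mk_rep y,
        Projectivization.mk_eq_mk_iff']
      refine ⟨x.rep j / y.rep j, ?_⟩
      funext i
      simp only [Pi.smul_apply, smul_eq_mul]
      field_simp
      linear_combination - hcon i j
    · rintro ⟨i, j, hij⟩ rfl
      apply hij
      ring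
  rw [h]
  refine @isOpen_iUnion _ _ (zariski K m) _ fun i => ?_
  refine @isOpen_iUnion _ _ (zariski K m) _ fun j => ?_
  apply isOpen_basic (d := 1)
  exact (by simpa using (isHomogeneous_X K i).C_mul (y.rep j)
    : (C (y.rep j) * X i : MvPolynomial (Fin m) K).IsHomogeneous 1).sub
    (by simpa using (isHomogeneous_X K j).C_mul (y.rep i))

end Pool.Agent.Lib.MP_1812d6_ag
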