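import Mathlib
import Pool.Agent.Lib.MP_1812d6_ag.Iso

/-!
# The triple locus of a general projection of the threefold is disconnected
-/

set_option autoImplicit false

namespace Pool.Agent.Lib.MP_1812d6_ag

open MvPolynomial

open scoped LinearAlgebra.Projectivization Topology

universe u

variable {K : Type u} [Field K]

theorem mem_ker_iff {O : ℙ K (Fin 6 → K)} {L : (Fin 6 → K) →ₗ[K] (Fin 5 → K)}
    (hL : IsProjectionFrom (N := 5) O L) (v : Fin 6 → K) : L v = 0 ↔ ∃ c : K, c • O.rep = v := by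
  rw [← LinearMap.mem_ker, hL.ker_eq, Projectivization.submodule_eq,
    Submodule.mem_span_singleton]

theorem exists_section {O : ℙ K (Fin 6 → K)} {L : (Fin 6 → K) →ₗ[K] (Fin 5 → K)}
    (hL : IsProjectionFrom (N := 5) O L) (h0 : O.rep 0 ≠ 0) :
    ∃ S : (Fin 5 → K) →ₗ[K] (Fin 6 → K), (∀ y, L (S y) = y) ∧ (∀ y, S y 0 = 0) ∧
      ∀ v, ∃ c : K, S (L v) = v - c • O.rep := by
  obtain ⟨M, hM⟩ := L.exists_rightInverse_of_surjective (LinearMap.range_eq_top.2 hL.surjective)
  have hM' : ∀ y, L (M y) = y := fun y => DFunLike.congr_fun hM y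
  have hLo : L O.rep = 0 := (mem_ker_iff hL _).2 ⟨1, one_smul _ _⟩
  let S : (Fin 5 → K) →ₗ[K] (Fin 6 → K) :=
    M - (((O.rep 0)⁻¹ • LinearMap.proj 0 : (Fin 6 → K) →ₗ[K] K) ∘ₗ M).smulRight O.rep
  have hS : ∀ y, S y = M y - ((O.rep 0)⁻¹ * M y 0) • O.rep := fun y => by simp [S]
  refine ⟨S, ?_, ?_, ?_⟩
  · intro y
    rw [hS, map_sub, map_smul, hLo, smul_zero, sub_zero, hM']
  · intro y
    rw [hS]
    simp only [Pi.sub_apply, Pi.smul_apply, smul_eq_mul]
    field_simp
    ring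
  · intro v
    have h1 : L (v - M (L v)) = 0 := by rw [map_sub, hM', sub_self]
    obtain ⟨c, hc⟩ := (mem_ker_iff hL _).1 h1
    refine ⟨c + (O.rep 0)⁻¹ * M (L v) 0, ?_⟩
    rw [hS, add_smul, hc]
    abel

/-- The determinant along the section, as a polynomial. -/
noncomputable def detPoly (o : Fin 6 → K) (S : (Fin 5 → K) →ₗ[K] (Fin 6 → K)) :
    MvPolynomial (Fin 5) K :=
  (Nmat (fun i => C (o i)) (fun j => ∑ i, C (S (Pi.single i 1) j) * X i)).det

theorem eval_detPoly (o : Fin 6 → K) (S : (Fin 5 → K) →ₗ[K] (Fin 6 → K)) (y : Fin 5 → K) :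
    eval y (detPoly o S) = (Nmat o (S y)).det := by
  rw [detPoly, map_det_Nmat]
  congr 2
  · funext i; simp
  · funext j
    simp only [map_sum, map_mul, eval_C, eval_X]
    conv_rhs => rw [LinearMap.pi_apply_eq_sum_univ S y]
    simp only [Finset.sum_apply, Pi.smul_apply, smul_eq_mul]
    refine Finset.sum_congr rfl fun i _ => ?_
    have hsingle : (Pi.single i 1 : Fin 5 → K) = fun k => if i = k then 1 else 0 := by
      funext k
      simp [Pi.single_apply, eq_comm]
    rw [mul_comm, hsingle]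

theorem isHomogeneous_detPoly [Infinite K] (o : Fin 6 → K)
    (S : (Fin 5 → K) →ₗ[K] (Fin 6 → K)) : (detPoly o S).IsHomogeneous 5 := by
  apply isHomogeneous_of_scaling
  intro c x
  rw [eval_detPoly, eval_detPoly]
  have : S (fun i => c * x i) = fun i => c * S x i := by
    have := S.map_smul c x
    simpa [Pi.smul_def] using this
  rw [this, det_Nmat_smul]

theorem not_isPreconnected [Infinite K] (O : ℙ K (Fin 6 → K)) (h0 : O.rep 0 ≠ 0)
    (hc : c3 O.rep ≠ 0) (hd : (Nmat O.rep ![0, 0, 0, 0, 0, 1]).det ≠ 0)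
    (L : (Fin 6 → K) →ₗ[K] (Fin 5 → K)) (hL : IsProjectionFrom (N := 5) O L) :
    ¬ @IsPreconnected _ (zariski K 5) (multLocus (N := 5) (I3 K) O L 3) := by
  intro hpre
  obtain ⟨S, hS1, hS0, hS2⟩ := exists_section hL h0
  -- the first special point
  have hL1 : L ![0, 0, 0, 0, 0, 1] ≠ 0 := by
    intro h
    obtain ⟨c, hc'⟩ := (mem_ker_iff hL _).1 h
    have e0 := congrFun hc' 0
    have e5 := congrFun hc' 5
    simp at e0 e5
    rcases e0 with e0 | e0
    · rw [e0, zero_mul] at e5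
      exact zero_ne_one e5
    · exact h0 e0
  have hL2 : ∀ c : K, L ![1, 0, 0, 0, 0, 1] ≠ c • L ![0, 0, 0, 0, 0, 1] := by
    intro c h
    rw [← map_smul, ← sub_eq_zero, ← map_sub] at h
    obtain ⟨b, hb⟩ := (mem_ker_iff hL _).1 h
    have e0 := congrFun hb 0
    have e1 := congrFun hb 1
    have e2 := congrFun hb 2
    have e3 := congrFun hb 3
    have e4 := congrFun hb 4
    simp at e0 e1 e2 e3 e4
    have hb0 : b ≠ 0 := by
      rintro rfl
      rw [zero_mul] at e0
      exact zero_ne_one e0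
    apply hc
    simp [c3, e3.resolve_left hb0, e4.resolve_left hb0]
  have hL2' : L ![1, 0, 0, 0, 0, 1] ≠ 0 := by
    intro h
    apply hL2 0
    rw [h, zero_smul]
  let y1 : ℙ K (Fin 5 → K) := Projectivization.mk K _ hL1
  let y2 : ℙ K (Fin 5 → K) := Projectivization.mk K _ hL2'
  have hy12 : y2 ≠ y1 := by
    intro h
    obtain ⟨a, ha⟩ := (Projectivization.mk_eq_mk_iff' K _ _ _ _).1 h
    exact hL2 a ha.symm
  have hy1 : y1 ∈ multLocus (N := 5) (I3 K) O L 3 := by
    obtain ⟨a, ha⟩ := Projectivization.exists_smul_eq_mk_rep K _ hL1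
    refine ⟨Pi.single 5 (a : K), ?_, ?_⟩
    · rw [← ha, Units.smul_def, ← map_smul]
      congr 1
      funext i
      fin_cases i <;> simp
    · exact three_le_fibreDegree _ _ hc fun F hF => X_pow_dvd_lineHom hF _ _
  have hy2 : y2 ∈ multLocus (N := 5) (I3 K) O L 3 := by
    obtain ⟨a, ha⟩ := Projectivization.exists_smul_eq_mk_rep K _ hL2'
    refine ⟨![(a : K), 0, 0, 0, 0, a], ?_, ?_⟩
    · rw [← ha, Units.smul_def, ← map_smul]
      congr 1
      funext i
      fin_cases i <;> simp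
    · exact three_le_fibreDegree _ _ hc fun F hF => X_pow_dvd_lineHom' hF _ _
  -- the open sets
  have hopen : IsOpen[zariski K 5] {y : ℙ K (Fin 5 → K) | eval y.rep (detPoly O.rep S) ≠ 0} :=
    isOpen_basic (isHomogeneous_detPoly O.rep S)
  have hy1u : y1 ∈ {y : ℙ K (Fin 5 → K) | eval y.rep (detPoly O.rep S) ≠ 0} := by
    change eval y1.rep _ ≠ 0
    rw [eval_rep_ne_zero (isHomogeneous_detPoly O.rep S), eval_detPoly]
    obtain ⟨c, hc'⟩ := hS2 ![0, 0, 0, 0, 0, 1]
    have e0 : c * O.rep 0 = 0 := by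
      have := hS0 (L ![0, 0, 0, 0, 0, 1])
      rw [hc'] at this
      simpa using this
    have : c = 0 := (mul_eq_zero.1 e0).resolve_right h0
    rw [hc', this, zero_smul, sub_zero]
    exact hd
  have hiso : ∀ y ∈ multLocus (N := 5) (I3 K) O L 3,
      y ∈ {y : ℙ K (Fin 5 → K) | eval y.rep (detPoly O.rep S) ≠ 0} → y = y1 := by
    rintro y ⟨v, hv, hdeg⟩ hy
    change eval y.rep _ ≠ 0 at hy
    rw [eval_detPoly] at hy
    obtain ⟨c, hc'⟩ := hS2 v
    rw [hv] at hc'
    have hdiv : ∀ i, lineHom O.rep (S y.rep) Ge ∣ lineHom O.rep (S y.rep) (G i) := by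
      intro i
      rw [hc']
      exact dvd_shift _ _ _ _ _ (dvd_of_fibreDegree _ _ hc hdeg _ (G_mem i))
    obtain ⟨z1, z2, z3, z4⟩ := eq_zero_of_dvd O.rep (S y.rep) (hS0 _) hc hdiv hy
    have z0 := hS0 y.rep
    have hSy : S y.rep = (S y.rep 5) • ![0, 0, 0, 0, 0, 1] := by
      funext i
      fin_cases i
      · simpa using z0
      · simpa using z1
      · simpa using z2
      · simpa using z3
      · simpa using z4
      · simp
    have hy' : y.rep = (S y.rep 5) • L ![0, 0, 0, 0, 0, 1] := by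
      rw [← map_smul, ← hSy, hS1]
    rw [← Projectivization.mk_rep y, Projectivization.mk_eq_mk_iff']
    exact ⟨_, hy'.symm⟩
  obtain ⟨y, hyS, hyu, hyv⟩ := hpre _ _ hopen (isOpen_ne y1) (by
    intro y _
    by_cases h : y = y1
    · left; rw [h]; exact hy1u
    · right; exact h) ⟨y1, hy1, hy1u⟩ ⟨y2, hy2, hy12⟩
  exact hyv (hiso y hyS hyu)

/-! ### General centres -/

/-- The condition on the centre. -/
noncomputable def genPoly (K : Type u) [Field K] : MvPolynomial (Fin 6) K :=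
  X 0 * c3 X * (Nmat X ![0, 0, 0, 0, 0, 1]).det

theorem eval_genPoly (x : Fin 6 → K) :
    eval x (genPoly K) = x 0 * c3 x * (Nmat x ![0, 0, 0, 0, 0, 1]).det := by
  rw [genPoly, map_mul, map_mul, map_c3, map_det_Nmat, eval_X]
  congr 2
  · congr 1
    funext i
    simp
  · congr 1
    · funext i
      simp
    · funext i
      fin_cases i <;> simp

theorem isHomogeneous_genPoly [Infinite K] : (genPoly K).IsHomogeneous 48 := by
  apply isHomogeneous_of_scaling
  intro c x
  rw [eval_genPoly, eval_genPoly, c3_smul_o, det_Nmat_smul_o]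
  ring

theorem genPoly_ne_zero : genPoly K ≠ 0 := by
  intro h
  have := eval_genPoly (K := K) ![1, 0, 0, 1, 0, 0]
  rw [h, map_zero, det_Nmat_base] at this
  simp [c3] at this

/-- The set of good centres. -/
def goodSet (K : Type u) [Field K] : Set (ℙ K (Fin 6 → K)) := {O | eval O.rep (genPoly K) ≠ 0}

theorem isDenseOpen_goodSet [Infinite K] : IsDenseOpen (goodSet K) := by
  refine ⟨isOpen_basic isHomogeneous_genPoly, ?_⟩
  rw [@dense_iff_inter_open _ (zariski K 6)]
  rintro U hU ⟨x, hx⟩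
  obtain ⟨d, F, hF, hFx, hFU⟩ := exists_basic hU hx
  have hF0 : F ≠ 0 := by
    rintro rfl
    simp at hFx
  have hne : F * genPoly K ≠ 0 := mul_ne_zero hF0 genPoly_ne_zero
  obtain ⟨z, hz⟩ : ∃ z, eval z (F * genPoly K) ≠ 0 := by
    by_contra! h
    exact hne (MvPolynomial.funext fun z => by rw [h z, map_zero])
  rw [map_mul] at hz
  have hz2 := right_ne_zero_of_mul hz
  have hz0 : z ≠ 0 := by
    rintro rfl
    rw [eval_genPoly] at hz2
    simp at hz2
  refine ⟨Projectivization.mk K z hz0, ?_, ?_⟩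
  · exact hFU _ ((eval_rep_ne_zero hF hz0).2 (left_ne_zero_of_mul hz))
  · exact (eval_rep_ne_zero isHomogeneous_genPoly hz0).2 hz2

theorem exists_proj (O : ℙ K (Fin 6 → K)) :
    ∃ L : (Fin 6 → K) →ₗ[K] (Fin 5 → K), IsProjectionFrom (N := 5) O L := by
  have h1 : Module.finrank K ((Fin 6 → K) ⧸ O.submodule) = 5 := by
    have := Submodule.finrank_quotient_add_finrank (O.submodule)
    rw [Projectivization.finrank_submodule] at this
    simp at this
    omega
  have h2 : Module.finrank K ((Fin 6 → K) ⧸ O.submodule) = Module.finrank K (Fin 5 → K) := by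
    rw [h1]; simp
  let e : ((Fin 6 → K) ⧸ O.submodule) ≃ₗ[K] (Fin 5 → K) := LinearEquiv.ofFinrankEq _ _ h2
  refine ⟨e.toLinearMap ∘ₗ O.submodule.mkQ, ?_, ?_⟩
  · exact e.surjective.comp (Submodule.mkQ_surjective _)
  · rw [LinearEquiv.ker_comp, Submodule.ker_mkQ]

theorem notMem_points (O : ℙ K (Fin 6 → K)) (hc : c3 O.rep ≠ 0) :
    O ∉ points (N := 5) (I3 K) := by
  intro h
  have := h Ge Ge_mem
  simp [Ge] at this
  exact hc this

theorem hasDisconnectedLocus [Infinite K] (O : ℙ K (Fin 6 → K)) (hO : O ∈ goodSet K) :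
    HasDisconnectedLocus (N := 5) (I3 K) 3 O := by
  change eval O.rep (genPoly K) ≠ 0 at hO
  rw [eval_genPoly] at hO
  have h0 := left_ne_zero_of_mul (left_ne_zero_of_mul hO)
  have hc := right_ne_zero_of_mul (left_ne_zero_of_mul hO)
  have hd := right_ne_zero_of_mul hO
  exact ⟨notMem_points O hc, exists_proj O, fun L hL => not_isPreconnected O h0 hc hd L hL⟩

theorem main (K : Type u) [Field K] [CharZero K] :
    ∃ (N n k : ℕ) (I : Ideal (MvPolynomial (Fin (N + 1)) K)),
      IsVarietyIdeal N n I ∧ IsNondegenerate I ∧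
      1 ≤ k ∧ ((k : ℤ) + 1) * ((N : ℤ) - n - 1) ≤ (N : ℤ) - 1 ∧
      ∃ V : Set (ℙ K (Fin (N + 1) → K)), IsDenseOpen V ∧ ∀ O ∈ V, HasDisconnectedLocus I k O :=
  ⟨5, 3, 3, I3 K, isVarietyIdeal_I3, isNondegenerate_I3, by norm_num, by norm_num,
    goodSet K, isDenseOpen_goodSet, hasDisconnectedLocus⟩

end Pool.Agent.Lib.MP_1812d6_ag
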